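import Pool.Agent.Lib.MP_eee7a8_ag.TB.A.Coord
import Pool.Agent.Lib.MP_eee7a8_ag.TB.Iface4

/-!
# TAGBR: coordinate at a cusp in which a given parabolic element is the translation by one
-/

open Matrix

namespace Pool.Agent.Lib.MP_eee7a8_ag.TB.C65

/-- `x` is strictly between `a` and `b` -/
def Btw (a x b : ℚ) : Prop := (a < x ∧ x < b) ∨ (b < x ∧ x < a)

/-- `x` is outside the closed interval `a`, `b` -/
def Out (a x b : ℚ) : Prop := (a < x ∧ b < x) ∨ (x < a ∧ x < b)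

/-- A coordinate at `z` in which `γ` is the translation by one. -/
structure Co (z : Cusp) (γ : SLZ) (t : Cusp → ℚ) : Prop where
  inj : ∀ {x y}, x ≠ z → y ≠ z → t x = t y → x = y
  off : ∀ (k : ℤ) {x}, x ≠ z → γ ^ k • x ≠ z
  sh : ∀ (k : ℤ) {x}, x ≠ z → t (γ ^ k • x) = t x + k
  fix : ∀ g : SLZ, g • z = z → ∃ n : ℚ, ∀ x, x ≠ z → g • x ≠ z ∧ t (g • x) = t x + n
  cz : ∀ {b x y}, b ≠ z → x ≠ z → y ≠ z → (Cross z b x y ↔ Btw (t x) (t b) (t y))
  cr : ∀ {a b x y}, a ≠ z → b ≠ z → x ≠ z → y ≠ z → (Cross a b x y ↔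
    (Btw (t a) (t x) (t b) ∧ Out (t a) (t y) (t b)) ∨
    (Out (t a) (t x) (t b) ∧ Btw (t a) (t y) (t b)))

theorem fix_zpow {z : Cusp} {γ : SLZ} (hz : γ • z = z) (k : ℤ) : γ ^ k • z = z := by
  have h1 : γ ∈ MulAction.stabilizer SLZ z := hz
  exact Subgroup.zpow_mem _ h1 k

theorem off_zpow {z : Cusp} {γ : SLZ} (hz : γ • z = z) (k : ℤ) {x : Cusp} (hx : x ≠ z) :
    γ ^ k • x ≠ z := by
  intro h0
  apply hx
  exact smul_left_cancel _ (h0.trans (fix_zpow hz k).symm)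

theorem exists_co {z w : Cusp} {γ : SLZ} (hz : γ • z = z) (hw : w ≠ z) (hne : γ • w ≠ w) :
    ∃ t, Co z γ t := by
  obtain ⟨t, h1, _, h3, h4, h5⟩ := coord z
  obtain ⟨n, hn, hn'⟩ := h3 γ hz
  have hn0 : (n : ℚ) ≠ 0 := by
    intro h0
    apply hne
    have := (hn' w hw).2
    rw [h0, add_zero] at this
    exact h1 _ _ (hn' w hw).1 hw this
  have hsh : ∀ (k : ℤ) x, x ≠ z → t (γ ^ k • x) = t x + k * n := by
    intro k x hx
    induction k using Int.induction_on with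
    | zero => simp
    | succ i ih =>
      rw [add_comm (i : ℤ) 1, _root_.zpow_one_add, mul_smul, (hn' _ (off_zpow hz _ hx)).2, ih]
      push_cast; ring
    | pred i ih =>
      have g1 := (hn' _ (off_zpow hz (-(i : ℤ) - 1) hx)).2
      rw [← mul_smul, ← _root_.zpow_one_add, add_sub_cancel, ih] at g1
      push_cast at g1 ⊢
      linarith
  have hlt : (∀ x y, t x / n < t y / n ↔ t x < t y) ∨ (∀ x y, t x / n < t y / n ↔ t y < t x) := by
    rcases lt_or_gt_of_ne hn0 with h | h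
    · right
      intro x y
      rw [div_lt_div_right_of_neg h]
    · left
      intro x y
      rw [div_lt_div_iff_of_pos_right h]
  have hB : ∀ a x b, Btw (t a / n) (t x / n) (t b / n) ↔
      (t a < t x ∧ t x < t b) ∨ (t b < t x ∧ t x < t a) := by
    intro a x b
    unfold Btw
    rcases hlt with h | h
    · rw [h, h, h, h]
    · rw [h, h, h, h]
      constructor
      · rintro (⟨e1, e2⟩ | ⟨e1, e2⟩)
        · exact Or.inr ⟨e2, e1⟩
        · exact Or.inl ⟨e2, e1⟩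
      · rintro (⟨e1, e2⟩ | ⟨e1, e2⟩)
        · exact Or.inr ⟨e2, e1⟩
        · exact Or.inl ⟨e2, e1⟩
  have hO : ∀ a x b, Out (t a / n) (t x / n) (t b / n) ↔
      (t a < t x ∧ t b < t x) ∨ (t x < t a ∧ t x < t b) := by
    intro a x b
    unfold Out
    rcases hlt with h | h
    · rw [h, h, h, h]
    · rw [h, h, h, h]
      exact or_comm
  refine ⟨fun x => t x / n, ?_, ?_, ?_, ?_, ?_, ?_⟩
  · intro x y hx hy e
    refine h1 x y hx hy ?_
    field_simp at e
    exact e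
  · intro k x hx
    exact off_zpow hz k hx
  · intro k x hx
    rw [hsh k x hx]
    field_simp
  · intro g hg
    obtain ⟨m, _, hm⟩ := h3 g hg
    refine ⟨(m : ℚ) / n, fun x hx => ⟨(hm x hx).1, ?_⟩⟩
    rw [(hm x hx).2]
    field_simp
  · intro b x y hb hx hy
    rw [h4 b x y hb hx hy, hB]
  · intro a b x y ha hb hx hy
    rw [h5 a b x y ha hb hx hy, hB, hB, hO, hO]

end Pool.Agent.Lib.MP_eee7a8_ag.TB.C65
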