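import Pool.Agent.Lib.MP_eee7a8_ag.TB.C65.Basic
import Pool.Agent.Lib.MP_eee7a8_ag.TB.StrandLem

/-!
# TAGBR: the once-punctured digon in coordinates
-/

open Matrix

namespace Pool.Agent.Lib.MP_eee7a8_ag.TB.C65

/-- Position of a cusp with respect to the vertices of the star of `z`. -/
theorem pos_lemma {z w v : Cusp} {γ : SLZ} {t : Cusp → ℚ} (C : Co z γ t)
    (hw : w ≠ z) (hv : v ≠ z) {X : Cusp} (hX : X ≠ z) :
    (∃ k : ℤ, X = γ ^ k • w ∨ X = γ ^ k • v) ∨
    ∃ k : ℤ, (t w + k < t X ∧ t X < t v + k) ∨ (t v + k < t X ∧ t X < t w + (k + 1)) := by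
  have hk1 := Int.floor_le (t X - t w)
  have hk2 := Int.lt_floor_add_one (t X - t w)
  generalize ⌊t X - t w⌋ = k at hk1 hk2
  rcases eq_or_lt_of_le hk1 with h3 | h3
  · left
    refine ⟨k, Or.inl (C.inj hX (C.off k hw) ?_)⟩
    rw [C.sh k hw]; linarith
  · rcases lt_trichotomy (t X) (t v + k) with h4 | h4 | h4
    · right
      exact ⟨k, Or.inl ⟨by linarith, h4⟩⟩
    · left
      refine ⟨k, Or.inr (C.inj hX (C.off k hv) ?_)⟩
      rw [C.sh k hv]; exact h4
    · right
      exact ⟨k, Or.inr ⟨h4, by linarith⟩⟩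

section

variable {G : Subgroup SLZ} {ι : Type} {T : Fam ι} {z w v : Cusp} {γ : SLZ}

theorem Dz (D : Digon G T z w v γ) : w ≠ z ∧ v ≠ z :=
  ⟨(D.tri.toNonCross.ne' D.zw).symm, (D.tri.toNonCross.ne' D.zv).symm⟩

theorem dig_co (D : Digon G T z w v γ) : ∃ t, Co z γ t ∧ t w < t v ∧ t v < t w + 1 := by
  obtain ⟨hw, hv⟩ := Dz D
  obtain ⟨t, C⟩ := exists_co D.fix hw D.cross.ne.2.2.2.2.2.symm
  refine ⟨t, C, ?_⟩
  have h1 := C.sh 1 hw
  have h2 := C.off 1 hw
  rw [_root_.zpow_one] at h1 h2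
  have h3 := (C.cz hv hw h2).1 D.cross
  rw [h1] at h3
  push_cast at h3
  rcases h3 with h3 | h3
  · exact h3
  · linarith [h3.1, h3.2]

theorem Ezp (D : Digon G T z w v γ) (k : ℤ) {y : Cusp} (h : T.E G z y) : T.E G z (γ ^ k • y) := by
  have := h.smul (G.zpow_mem D.mem k)
  rwa [fix_zpow D.fix k] at this

theorem Ewv (D : Digon G T z w v γ) (k : ℤ) : T.E G (γ ^ k • w) (γ ^ k • v) :=
  D.wv.smul (G.zpow_mem D.mem k)

theorem Evw (D : Digon G T z w v γ) (k : ℤ) : T.E G (γ ^ k • v) (γ ^ (k + 1) • w) := by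
  have := D.vw.smul (G.zpow_mem D.mem k)
  rwa [← mul_smul, ← _root_.zpow_add_one] at this

/-- The neighbours of `z`. -/
theorem nbr (D : Digon G T z w v γ) {y : Cusp} (hy : T.E G z y) :
    ∃ k : ℤ, y = γ ^ k • w ∨ y = γ ^ k • v := by
  obtain ⟨hw, hv⟩ := Dz D
  obtain ⟨t, C, h1, h2⟩ := dig_co D
  have hyz := (D.tri.toNonCross.ne' hy).symm
  rcases pos_lemma C hw hv hyz with h | ⟨k, h | h⟩
  · exact h
  · exfalso
    refine D.tri.nocross _ _ _ _ hy (Ewv D k) ?_
    rw [C.cz hyz (C.off k hw) (C.off k hv), C.sh k hw, C.sh k hv]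
    exact Or.inl h
  · exfalso
    refine D.tri.nocross _ _ _ _ hy (Evw D k) ?_
    rw [C.cz hyz (C.off k hv) (C.off _ hw), C.sh k hv, C.sh _ hw]
    push_cast
    exact Or.inl h

theorem tri_w (D : Digon G T z w v γ) {c : Cusp} (hc : T.E G z c) (hc' : T.E G w c) :
    c = v ∨ c = γ ^ (-1 : ℤ) • v := by
  obtain ⟨hw, hv⟩ := Dz D
  obtain ⟨t, C, h1, h2⟩ := dig_co D
  have hcz := (D.tri.toNonCross.ne' hc).symm
  have hcw := (D.tri.toNonCross.ne' hc')
  -- an edge `z y` does not separate `w` and `c`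
  have key : ∀ y, y ≠ z → T.E G z y → ¬ Btw (t w) (t y) (t c) := by
    intro y hyz hy hb
    exact D.tri.nocross _ _ _ _ hy hc' ((C.cz hyz hw hcz).2 hb)
  obtain ⟨k, rfl | rfl⟩ := nbr D hc
  · exfalso
    rcases lt_trichotomy k 0 with hk | hk | hk
    · have hk' : (k : ℚ) ≤ -1 := by exact_mod_cast (by omega : k ≤ -1)
      apply key _ (C.off (-1) hv) (Ezp D (-1) D.zv)
      rw [C.sh, C.sh k hw] <;> try exact hv
      push_cast
      exact Or.inr ⟨by linarith, by linarith⟩
    · apply hcw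
      rw [hk, _root_.zpow_zero, one_smul]
    · have hk' : (1 : ℚ) ≤ k := by exact_mod_cast (by omega : 1 ≤ k)
      apply key v hv D.zv
      rw [C.sh k hw]
      exact Or.inl ⟨by linarith, by linarith⟩
  · rcases lt_trichotomy k (-1) with hk | hk | hk
    · exfalso
      have hk' : (k : ℚ) ≤ -2 := by exact_mod_cast (by omega : k ≤ -2)
      apply key _ (C.off (-1) hw) (Ezp D (-1) D.zw)
      rw [C.sh (-1) hw, C.sh k hv]
      push_cast
      exact Or.inr ⟨by linarith, by linarith⟩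
    · right; rw [hk]
    · rcases eq_or_lt_of_le (by omega : 0 ≤ k) with hk0 | hk0
      · left; rw [← hk0, _root_.zpow_zero, one_smul]
      · exfalso
        have hk' : (1 : ℚ) ≤ k := by exact_mod_cast (by omega : 1 ≤ k)
        apply key _ (C.off 1 hw) (Ezp D 1 D.zw)
        rw [C.sh 1 hw, C.sh k hv]
        push_cast
        exact Or.inl ⟨by linarith, by linarith⟩

theorem tri_v (D : Digon G T z w v γ) {c : Cusp} (hc : T.E G z c) (hc' : T.E G v c) :
    c = w ∨ c = γ ^ (1 : ℤ) • w := by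
  obtain ⟨hw, hv⟩ := Dz D
  obtain ⟨t, C, h1, h2⟩ := dig_co D
  have hcz := (D.tri.toNonCross.ne' hc).symm
  have hcw := (D.tri.toNonCross.ne' hc')
  have key : ∀ y, y ≠ z → T.E G z y → ¬ Btw (t v) (t y) (t c) := by
    intro y hyz hy hb
    exact D.tri.nocross _ _ _ _ hy hc' ((C.cz hyz hv hcz).2 hb)
  obtain ⟨k, rfl | rfl⟩ := nbr D hc
  · rcases lt_trichotomy k 0 with hk | hk | hk
    · exfalso
      have hk' : (k : ℚ) ≤ -1 := by exact_mod_cast (by omega : k ≤ -1)
      apply key w hw D.zw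
      rw [C.sh k hw]
      exact Or.inr ⟨by linarith, by linarith⟩
    · left; rw [hk, _root_.zpow_zero, one_smul]
    · rcases eq_or_lt_of_le (by omega : 1 ≤ k) with hk0 | hk0
      · right; rw [← hk0]
      · exfalso
        have hk' : (2 : ℚ) ≤ k := by exact_mod_cast (by omega : 2 ≤ k)
        apply key _ (C.off 1 hw) (Ezp D 1 D.zw)
        rw [C.sh 1 hw, C.sh k hw]
        push_cast
        exact Or.inl ⟨by linarith, by linarith⟩
  · exfalso
    rcases lt_trichotomy k 0 with hk | hk | hk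
    · have hk' : (k : ℚ) ≤ -1 := by exact_mod_cast (by omega : k ≤ -1)
      apply key w hw D.zw
      rw [C.sh k hv]
      exact Or.inr ⟨by linarith, by linarith⟩
    · apply hcw
      rw [hk, _root_.zpow_zero, one_smul]
    · have hk' : (1 : ℚ) ≤ k := by exact_mod_cast (by omega : 1 ≤ k)
      apply key _ (C.off 1 hw) (Ezp D 1 D.zw)
      rw [C.sh 1 hw, C.sh k hv]
      push_cast
      exact Or.inl ⟨by linarith, by linarith⟩

end

/-- Module DIGONA. -/
theorem digona : DigonaStatement := by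
  intro G _ ι _ T z w v γ D
  obtain ⟨hw, hv⟩ := Dz D
  constructor
  · rintro ⟨g, hg, ⟨e1, e2⟩ | ⟨e1, e2⟩⟩
    · obtain ⟨t, C, h1, h2⟩ := dig_co D
      obtain ⟨k, hk⟩ := D.gen g hg e1
      have e3 : γ ^ k • w = v := by
        rcases hk with rfl | rfl
        · exact e2
        · rw [neg_smul'] at e2; exact e2
      have e4 := C.sh k hw
      rw [e3] at e4
      have h3 : (0 : ℚ) < k := by linarith
      have h4 : (k : ℚ) < 1 := by linarith
      have h5 : 0 < k := by exact_mod_cast h3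
      have h6 : k < 1 := by exact_mod_cast h4
      omega
    · exact D.nv g hg e1
  · intro a b c hab hac hbc
    -- both ends of an arc are treated in the same way
    have key : ∀ g ∈ G, ∀ u, (u = w ∨ u = v) → ∀ c, T.E G (g • z) c → T.E G (g • u) c →
        (∃ k : ℤ, SameArc G z w (g • z) c ∨ SameArc G z v (g • z) c) ∧
        (SameArc G w v (g • u) c ∨ SameArc G v (γ • w) (g • u) c) := by
      intro g hg u hu c h1 h2
      have h1' : T.E G z (g⁻¹ • c) := by
        have := h1.smul (G.inv_mem hg)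
        rwa [inv_smul_smul] at this
      have h2' : T.E G u (g⁻¹ • c) := by
        have := h2.smul (G.inv_mem hg)
        rwa [inv_smul_smul] at this
      have hcc : c = g • g⁻¹ • c := (smul_inv_smul g c).symm
      have hrad : ∀ (k : ℤ) (x : Cusp), g⁻¹ • c = γ ^ k • x → SameArc G z x (g • z) c := by
        intro k x hx
        rw [hcc, hx]
        refine ⟨g * γ ^ k, G.mul_mem hg (G.zpow_mem D.mem k), Or.inl ⟨?_, ?_⟩⟩
        · rw [mul_smul, fix_zpow D.fix k]
        · rw [mul_smul]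
      rcases hu with rfl | rfl
      · rcases tri_w D h1' h2' with h3 | h3
        · refine ⟨⟨0, Or.inr (hrad 0 v (by rw [h3, _root_.zpow_zero, one_smul]))⟩, Or.inl ?_⟩
          rw [hcc, h3]
          exact SameArc.smul hg _ _
        · refine ⟨⟨0, Or.inr (hrad (-1) v h3)⟩, Or.inr ?_⟩
          rw [hcc, h3]
          refine ⟨g * γ ^ (-1 : ℤ), G.mul_mem hg (G.zpow_mem D.mem _), Or.inr ⟨?_, ?_⟩⟩
          · rw [mul_smul]
          · rw [mul_smul, _root_.zpow_neg_one, inv_smul_smul]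
      · rcases tri_v D h1' h2' with h3 | h3
        · refine ⟨⟨0, Or.inl (hrad 0 w (by rw [h3, _root_.zpow_zero, one_smul]))⟩, Or.inl ?_⟩
          rw [hcc, h3]
          exact (SameArc.smul hg w u).trans (SameArc.rev _ _)
        · refine ⟨⟨0, Or.inl (hrad 1 w h3)⟩, Or.inr ?_⟩
          rw [hcc, h3, _root_.zpow_one]
          exact SameArc.smul hg _ _
    rcases hab with ⟨g, hg, ⟨rfl, rfl⟩ | ⟨rfl, rfl⟩⟩ | ⟨g, hg, ⟨rfl, rfl⟩ | ⟨rfl, rfl⟩⟩
    · obtain ⟨⟨k, h⟩, _⟩ := key g hg w (Or.inl rfl) c hac hbc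
      exact Or.inl h
    · obtain ⟨_, h⟩ := key g hg w (Or.inl rfl) c hbc hac
      exact Or.inr h
    · obtain ⟨⟨k, h⟩, _⟩ := key g hg v (Or.inr rfl) c hac hbc
      exact Or.inl h
    · obtain ⟨_, h⟩ := key g hg v (Or.inr rfl) c hbc hac
      exact Or.inr h

/-- A point in an interval between neighbouring vertices. -/
theorem itv {A B X u Y : ℚ} (h1 : A < X) (h2 : X < B) (h3 : u ≤ A ∨ B ≤ u) (h : Btw X u Y) :
    (Btw X A Y ∧ Out X B Y) ∨ (Out X A Y ∧ Btw X B Y) := by
  unfold Btw Out at *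
  rcases h3 with h3 | h3
  · left
    rcases h with ⟨h4, h5⟩ | ⟨h4, h5⟩
    · exfalso; linarith
    · exact ⟨Or.inr ⟨by linarith, h1⟩, Or.inl ⟨h2, by linarith⟩⟩
  · right
    rcases h with ⟨h4, h5⟩ | ⟨h4, h5⟩
    · exact ⟨Or.inr ⟨h1, by linarith⟩, Or.inl ⟨h2, by linarith⟩⟩
    · exfalso; linarith

theorem digb_aux {G : Subgroup SLZ} {ι : Type} {T : Fam ι} {z w v : Cusp} {γ : SLZ}
    (D : Digon G T z w v γ) {X Y u : Cusp} (hu : u = w ∨ u = v)
    (hs1 : ∀ k : ℤ, ¬ Cross X Y (γ ^ k • w) (γ ^ k • v))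
    (hs2 : ∀ k : ℤ, ¬ Cross X Y (γ ^ k • v) (γ ^ (k + 1) • w)) (hc : Cross z u X Y) :
    ∃ k : ℤ, X = γ ^ k • w ∨ X = γ ^ k • v := by
  obtain ⟨hw, hv⟩ := Dz D
  obtain ⟨t, C, h1, h2⟩ := dig_co D
  have hne := hc.ne
  have hX : X ≠ z := hne.2.1.symm
  have hY : Y ≠ z := hne.2.2.1.symm
  have huz : u ≠ z := by rcases hu with rfl | rfl <;> assumption
  rw [C.cz huz hX hY] at hc
  rcases pos_lemma C hw hv hX with h | ⟨k, h | h⟩
  · exact h
  · exfalso
    apply hs1 k
    rw [C.cr hX hY (C.off k hw) (C.off k hv), C.sh k hw, C.sh k hv]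
    refine itv h.1 h.2 ?_ hc
    rcases hu with rfl | rfl
    · rcases lt_or_ge k 0 with hk | hk
      · right
        have hk' : (k : ℚ) ≤ -1 := by exact_mod_cast (by omega : k ≤ -1)
        linarith
      · left
        have hk' : (0 : ℚ) ≤ k := by exact_mod_cast hk
        linarith
    · rcases le_or_gt k 0 with hk | hk
      · right
        have hk' : (k : ℚ) ≤ 0 := by exact_mod_cast hk
        linarith
      · left
        have hk' : (1 : ℚ) ≤ k := by exact_mod_cast (by omega : 1 ≤ k)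
        linarith
  · exfalso
    apply hs2 k
    rw [C.cr hX hY (C.off k hv) (C.off _ hw), C.sh k hv, C.sh _ hw]
    refine itv h.1 (by push_cast; exact h.2) ?_ hc
    push_cast
    rcases hu with rfl | rfl
    · rcases lt_or_ge k 0 with hk | hk
      · right
        have hk' : (k : ℚ) ≤ -1 := by exact_mod_cast (by omega : k ≤ -1)
        linarith
      · left
        have hk' : (0 : ℚ) ≤ k := by exact_mod_cast hk
        linarith
    · rcases lt_or_ge k 0 with hk | hk
      · right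
        have hk' : (k : ℚ) ≤ -1 := by exact_mod_cast (by omega : k ≤ -1)
        linarith
      · left
        have hk' : (0 : ℚ) ≤ k := by exact_mod_cast hk
        linarith

/-- Module DIGONB. -/
theorem digonb : DigonbStatement := by
  intro G _ ι _ T z w v γ D x y hside hrad
  obtain ⟨g, hg, u, hu, hc⟩ : ∃ g ∈ G, ∃ u, (u = w ∨ u = v) ∧ Cross z u (g • x) (g • y) := by
    obtain ⟨c, d, hcd, hc⟩ := hrad
    have key : ∀ u, SameArc G z u c d → ∃ g ∈ G, Cross z u (g • x) (g • y) := by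
      rintro u ⟨g, hg, h | h⟩
      · refine ⟨g⁻¹, G.inv_mem hg, ?_⟩
        rw [← cross_smul g, smul_inv_smul, smul_inv_smul, h.1, h.2]
        exact cross_swap.1 hc
      · refine ⟨g⁻¹, G.inv_mem hg, ?_⟩
        rw [← cross_smul g, smul_inv_smul, smul_inv_smul, h.1, h.2]
        exact cross_comm_left.1 (cross_swap.1 hc)
    rcases hcd with h | h
    · obtain ⟨g, hg, h'⟩ := key w h
      exact ⟨g, hg, w, Or.inl rfl, h'⟩
    · obtain ⟨g, hg, h'⟩ := key v h
      exact ⟨g, hg, v, Or.inr rfl, h'⟩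
  have hs1 : ∀ k : ℤ, ¬ Cross (g • x) (g • y) (γ ^ k • w) (γ ^ k • v) := by
    intro k h
    rw [← cross_smul g⁻¹, inv_smul_smul, inv_smul_smul, ← mul_smul, ← mul_smul] at h
    exact hside _ _ (Or.inl (SameArc.smul (G.mul_mem (G.inv_mem hg) (G.zpow_mem D.mem k)) _ _)) h
  have hs2 : ∀ k : ℤ, ¬ Cross (g • x) (g • y) (γ ^ k • v) (γ ^ (k + 1) • w) := by
    intro k h
    rw [← cross_smul g⁻¹, inv_smul_smul, inv_smul_smul, _root_.zpow_add_one, mul_smul (γ ^ k),
      ← mul_smul, ← mul_smul] at h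
    exact hside _ _ (Or.inr (SameArc.smul (G.mul_mem (G.inv_mem hg) (G.zpow_mem D.mem k)) _ _)) h
  obtain ⟨i, hi⟩ := digb_aux D hu hs1 hs2 hc
  obtain ⟨j, hj⟩ := digb_aux D hu (fun k h => hs1 k (cross_comm_left.1 h))
    (fun k h => hs2 k (cross_comm_left.1 h)) (cross_comm_right.1 hc)
  exact ⟨g, hg, i, j, hi, hj⟩

/-! ### DIGONC -/

theorem same_sgn {s x y : ℤ} (hx : 0 < s * x) (hy : 0 < s * y) : 0 < x * y := by
  have h1 : 0 < (s * x) * (s * y) := mul_pos hx hy
  have h2 : (s * x) * (s * y) = s ^ 2 * (x * y) := by ring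
  rw [h2] at h1
  exact pos_of_mul_pos_right h1 (sq_nonneg s)

theorem side_conj' (g h : SLZ) (v : Cusp) : side h (g • v) = side (g⁻¹ * h * g) v := by
  have := PB.side_conj g (g⁻¹ * h * g) v
  rw [← this]
  congr 1
  group

theorem side_par (h : SLZ) (z w : Cusp) (m : ℤ) : side h (par z m • w) = side h w +
    m * (dt z w * (w.x * (h.1 1 0 * z.x + h.1 1 1 * z.y) + z.x * (h.1 1 0 * w.x + h.1 1 1 * w.y) -
      w.y * (h.1 0 0 * z.x + h.1 0 1 * z.y) - z.y * (h.1 0 0 * w.x + h.1 0 1 * w.y))) +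
    m ^ 2 * (dt z w ^ 2 * side h z) := by
  have h1 := par_smul_x z w m
  have h2 := par_smul_y z w m
  have he := eps_sq (par z m) w
  have h3 : side h (par z m • w) =
      (eps (par z m) w * (par z m • w).x) * (h.1 1 0 * (eps (par z m) w * (par z m • w).x) +
        h.1 1 1 * (eps (par z m) w * (par z m • w).y)) -
      (eps (par z m) w * (par z m • w).y) * (h.1 0 0 * (eps (par z m) w * (par z m • w).x) +
        h.1 0 1 * (eps (par z m) w * (par z m • w).y)) := by
    unfold side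
    generalize (par z m • w).x = X
    generalize (par z m • w).y = Y
    generalize eps (par z m) w = e at *
    linear_combination (-(X * (h.1 1 0 * X + h.1 1 1 * Y) - Y * (h.1 0 0 * X + h.1 0 1 * Y))) * he
  rw [h3, h1, h2]
  unfold side
  ring

theorem big (P Q R : ℤ) (hR : 1 ≤ R) : ∃ k : ℕ, 0 < P + k * Q + k ^ 2 * R := by
  refine ⟨(|P| + |Q| + 1).toNat, ?_⟩
  have hk : (((|P| + |Q| + 1).toNat : ℕ) : ℤ) = |P| + |Q| + 1 :=
    Int.toNat_of_nonneg (by positivity)
  rw [hk]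
  have h1 := neg_abs_le P
  have h2 := neg_abs_le Q
  have h3 := abs_nonneg P
  have h4 := abs_nonneg Q
  generalize |P| = p at *
  generalize |Q| = q at *
  have h5 : (p + q + 1) * (-q) ≤ (p + q + 1) * Q := mul_le_mul_of_nonneg_left h2 (by linarith)
  have h6 : (p + q + 1) ^ 2 * 1 ≤ (p + q + 1) ^ 2 * R := mul_le_mul_of_nonneg_left hR (sq_nonneg _)
  nlinarith [mul_nonneg h3 h3, mul_nonneg h3 h4]

theorem digc_aux {G : Subgroup SLZ} {ι : Type} {T : Fam ι} {z w v : Cusp} {γ : SLZ}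
    (D : Digon G T z w v γ) {h : SLZ} (ht : 2 < |h.1.trace|)
    (hs1 : ∀ k : ℤ, 0 < side h (γ ^ k • w) * side h (γ ^ k • v))
    (hs2 : ∀ k : ℤ, 0 < side h (γ ^ k • v) * side h (γ ^ (k + 1) • w)) :
    0 < side h z * side h w ∧ 0 < side h z * side h v := by
  obtain ⟨hw, hv⟩ := Dz D
  have hwv : 0 < side h w * side h v := by
    have := hs1 0
    rwa [_root_.zpow_zero, one_smul, one_smul] at this
  have chain : ∀ k : ℕ, 0 < side h w * side h (γ ^ k • w) := by
    intro k
    induction k with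
    | zero =>
      rw [pow_zero, one_smul]
      exact mul_self_pos.2 (PB.side_ne_zero ht w)
    | succ k ih =>
      have h1 := hs1 k
      have h2 := hs2 k
      have e1 : γ ^ (k : ℤ) = γ ^ k := zpow_natCast γ k
      have e2 : γ ^ ((k : ℤ) + 1) = γ ^ (k + 1) := by
        rw [← zpow_natCast]; push_cast; rfl
      rw [e1] at h1 h2
      rw [e2] at h2
      have h3 : 0 < side h w * side h (γ ^ k • v) := by
        rw [mul_comm] at ih
        exact same_sgn ih h1
      rw [mul_comm] at h3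
      exact same_sgn h3 h2
  obtain ⟨n, hn⟩ := fix_par D.fix
  have hact : ∀ x : Cusp, γ • x = par z n • x := by
    intro x
    rcases hn with h1 | h1
    · rw [h1]
    · rw [h1, neg_smul']
  have hact' : ∀ k : ℕ, γ ^ k • w = par z (k * n) • w := by
    intro k
    induction k with
    | zero => simp [par_zero]
    | succ k ih =>
      rw [pow_succ', mul_smul, ih, hact, ← mul_smul, par_mul]
      congr 2
      push_cast; ring
  have hn0 : n ≠ 0 := by
    rintro rfl
    have h1 := hact w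
    rw [par_zero, one_smul] at h1
    exact D.cross.ne.2.2.2.2.2 h1.symm
  have hS : side h z ≠ 0 := PB.side_ne_zero ht z
  have hD : dt z w ≠ 0 := dt_ne_zero hw.symm
  set B := dt z w * (w.x * (h.1 1 0 * z.x + h.1 1 1 * z.y) +
    z.x * (h.1 1 0 * w.x + h.1 1 1 * w.y) - w.y * (h.1 0 0 * z.x + h.1 0 1 * z.y) -
    z.y * (h.1 0 0 * w.x + h.1 0 1 * w.y)) with hB
  have hR : 1 ≤ (n * dt z w * side h z) ^ 2 := by
    have : 0 < (n * dt z w * side h z) ^ 2 := by positivity
    omega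
  obtain ⟨k, hk⟩ := big (side h z * side h w) (n * B * side h z) _ hR
  have h1 : 0 < side h (γ ^ k • w) * side h z := by
    rw [hact', side_par, ← hB]
    have : side h z * side h w + k * (n * B * side h z) + k ^ 2 * (n * dt z w * side h z) ^ 2 =
      (side h w + k * n * B + (k * n) ^ 2 * (dt z w ^ 2 * side h z)) * side h z := by ring
    rw [← this]; exact hk
  have h2 : 0 < side h z * side h w := by
    have h3 := chain k
    rw [mul_comm] at h3
    exact same_sgn h1 h3
  refine ⟨h2, ?_⟩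
  rw [mul_comm] at h2
  exact same_sgn h2 hwv

/-- Module DIGONC. -/
theorem digonc : DigoncStatement := by
  intro G _ ι _ T z w v γ D h hh htr hside
  have main : ∀ g ∈ G, 0 < side h (g • z) * side h (g • w) ∧
      0 < side h (g • z) * side h (g • v) := by
    intro g hg
    rw [side_conj', side_conj', side_conj']
    apply digc_aux D
    · have : (g⁻¹ * h * g).1.trace = h.1.trace := by
        have := PB.trace_conj g⁻¹ h
        rwa [inv_inv] at this
      rw [this]; exact htr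
    · intro k
      rw [← side_conj', ← side_conj', ← mul_smul, ← mul_smul]
      exact hside _ _ (Or.inl (SameArc.smul (G.mul_mem hg (G.zpow_mem D.mem k)) _ _))
    · intro k
      rw [← side_conj', ← side_conj', _root_.zpow_add_one, mul_smul (γ ^ k), ← mul_smul,
        ← mul_smul]
      exact hside _ _ (Or.inr (SameArc.smul (G.mul_mem hg (G.zpow_mem D.mem k)) _ _))
  rintro c d (⟨g, hg, ⟨rfl, rfl⟩ | ⟨rfl, rfl⟩⟩ | ⟨g, hg, ⟨rfl, rfl⟩ | ⟨rfl, rfl⟩⟩)
  · exact (main g hg).1
  · rw [mul_comm]; exact (main g hg).1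
  · exact (main g hg).2
  · rw [mul_comm]; exact (main g hg).2

end Pool.Agent.Lib.MP_eee7a8_ag.TB.C65
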