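import Pool.Agent.Lib.MP_eee7a8_ag.TB.C65.Basic

/-!
# TAGBR: module MONOG (monogon loops)
-/

open Matrix

namespace Pool.Agent.Lib.MP_eee7a8_ag.TB.C65

section

variable {G : Subgroup SLZ} {a c : Cusp} {g : SLZ}

/-- translates of the loop do not cross -/
theorem loop_nc (hs : Simple G a (g • a)) {k l : SLZ} (hk : k ∈ G) (hl : l ∈ G) :
    ¬ Cross (k • a) (k • g • a) (l • a) (l • g • a) := by
  intro h
  rw [← cross_smul k⁻¹, inv_smul_smul, inv_smul_smul, ← mul_smul, ← mul_smul] at h
  exact hs.2 _ (G.mul_mem (G.inv_mem hk) hl) h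

theorem ac_ne (hc : g • c = c) (hs : Simple G a (g • a)) : a ≠ c := by
  rintro rfl
  exact hs.1 hc.symm

/-- interval of the star -/
theorem star_pos {t : Cusp → ℚ} (C : Co c g t) (ha : a ≠ c) {X : Cusp} (hX : X ≠ c) :
    (∃ k : ℤ, X = g ^ k • a) ∨ ∃ k : ℤ, t a + k < t X ∧ t X < t a + (k + 1) := by
  have hk1 := Int.floor_le (t X - t a)
  have hk2 := Int.lt_floor_add_one (t X - t a)
  generalize ⌊t X - t a⌋ = k at hk1 hk2
  rcases eq_or_lt_of_le hk1 with h3 | h3
  · left
    refine ⟨k, C.inj hX (C.off k ha) ?_⟩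
    rw [C.sh k ha]; linarith
  · right
    exact ⟨k, by linarith, by linarith⟩

theorem zpow_a (k : ℤ) : g ^ k • g • a = g ^ (k + 1) • a := by
  rw [← mul_smul, ← _root_.zpow_add_one]

/-- a pair `(c, Y)` which crosses no translate of the loop ends at a vertex of the star -/
theorem vert {t : Cusp → ℚ} (C : Co c g t) (ha : a ≠ c) {Y : Cusp} (hY : Y ≠ c)
    (h : ∀ k : ℤ, ¬ Cross c Y (g ^ k • a) (g ^ (k + 1) • a)) : ∃ k : ℤ, Y = g ^ k • a := by
  rcases star_pos C ha hY with h1 | ⟨k, h1, h2⟩
  · exact h1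
  · exfalso
    apply h k
    rw [C.cz hY (C.off k ha) (C.off _ ha), C.sh k ha, C.sh _ ha]
    push_cast
    exact Or.inl ⟨h1, h2⟩

/-- the ends are at different punctures -/
theorem monog_ne (hF : FixTwoStatement) (hG : IsSurface G) (hg : g ∈ G) (hc : g • c = c)
    (hs : Simple G a (g • a)) : ∀ k ∈ G, k • c ≠ a := by
  intro k hk hka
  have ha := ac_ne hc hs
  obtain ⟨t, C⟩ := exists_co hc ha hs.1.symm
  have hY : k⁻¹ • g • a ≠ c := by
    intro h0
    have : g • a = k • c := by rw [← h0, smul_inv_smul]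
    rw [hka] at this
    exact hs.1 this.symm
  obtain ⟨j, hj⟩ := vert C ha hY (by
    intro i h
    have h1 := loop_nc hs (G.inv_mem hk) (G.zpow_mem hg i)
    rw [zpow_a] at h1
    apply h1
    have : k⁻¹ • a = c := by rw [← hka, inv_smul_smul]
    rwa [this])
  -- the element `φ`
  obtain ⟨φ, hφ, h1, h2⟩ : ∃ φ ∈ G, φ • c = a ∧ φ • a = g • a := by
    refine ⟨k * g ^ j, G.mul_mem hk (G.zpow_mem hg j), ?_, ?_⟩
    · rw [mul_smul, fix_zpow hc, hka]
    · rw [mul_smul, ← hj, smul_inv_smul]
  have hcga : c ≠ g • a := by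
    intro e
    exact off_zpow hc 1 ha (by rw [_root_.zpow_one]; exact e.symm)
  -- `(c, a)` is a translate of the loop
  have e1 : φ⁻¹ • a = c := by rw [← h1, inv_smul_smul]
  have e2 : φ⁻¹ • g • a = a := by rw [← h2, inv_smul_smul]
  have hcyc : φ • g • a = c := by
    refine third_unique (c := a) (d := g • a) ?_ ?_ ?_ ?_ ?_ ha.symm hcga hs.1
    · -- orientation
      have hd : dt (φ • c) (φ • a) * (dt (φ • a) (φ • g • a) * dt (φ • g • a) (φ • c)) =
          dt c a * (dt a (g • a) * dt (g • a) c) := by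
        rw [dt_smul, dt_smul, dt_smul]
        linear_combination (dt c a * (dt a (g • a) * dt (g • a) c)) *
          ((eps φ a * eps φ a) * (eps φ (g • a) * eps φ (g • a)) * eps_sq φ c +
            (eps φ (g • a) * eps φ (g • a)) * eps_sq φ a + eps_sq φ (g • a))
      rw [h1, h2] at hd
      have hne : dt a (g • a) ≠ 0 := dt_ne_zero hs.1
      have hQ : dt (g • a) (φ • g • a) * dt (φ • g • a) a = dt c a * dt (g • a) c := by
        apply mul_left_cancel₀ hne
        linear_combination hd
      unfold Cross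
      rw [dt_symm (φ • g • a) (g • a), dt_symm c (g • a)]
      have : dt (φ • g • a) a * dt c a * (-dt (g • a) (φ • g • a) * -dt (g • a) c) =
          (dt (g • a) (φ • g • a) * dt (φ • g • a) a) * (dt c a * dt (g • a) c) := by ring
      rw [this, hQ]
      exact not_lt.2 (mul_self_nonneg _)
    · -- `(φ g a, a)` and `(c, g a)`
      intro h
      have h3 := loop_nc hs (G.mul_mem (G.mul_mem hφ hg) (G.inv_mem hφ))
        (G.mul_mem hg (G.inv_mem hφ))
      apply h3
      have f1 : (φ * g * φ⁻¹) • a = a := by rw [mul_smul, mul_smul, e1, hc, h1]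
      have f2 : (φ * g * φ⁻¹) • g • a = φ • g • a := by rw [mul_smul, mul_smul, e2]
      have f3 : (g * φ⁻¹) • a = c := by rw [mul_smul, e1, hc]
      have f4 : (g * φ⁻¹) • g • a = g • a := by rw [mul_smul, e2]
      rw [f1, f2, f3, f4]
      exact cross_comm_left.1 h
    · intro h
      have h3 := loop_nc hs hφ (G.inv_mem hφ)
      apply h3
      rw [h2, e1, e2]
      exact cross_comm_left.1 h
    · intro e
      have : φ • g • a = φ • c := by rw [e, h1]
      exact hcga (smul_left_cancel _ this).symm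
    · intro e
      have : φ • g • a = φ • a := by rw [e, h2]
      exact hs.1 (smul_left_cancel _ this).symm
  exact hF.2 G hG φ hφ c a (g • a) ha.symm ⟨h1, h2, hcyc⟩

/-- the stabiliser -/
theorem monog_gen (hg : g ∈ G) (hc : g • c = c) (hs : Simple G a (g • a)) :
    ∀ k ∈ G, k • c = c → ∃ n : ℤ, k = g ^ n ∨ k = -g ^ n := by
  intro k hk hkc
  have ha := ac_ne hc hs
  obtain ⟨t, C⟩ := exists_co hc ha hs.1.symm
  obtain ⟨n, hn⟩ := C.fix k hkc
  refine ⟨⌊n⌋, ?_⟩
  have h1 := Int.floor_le n
  have h2 := Int.lt_floor_add_one n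
  generalize ⌊n⌋ = m at h1 h2
  -- `l = g ^ (-m) k` is the translation by `n - m`
  have hl : ∀ x, x ≠ c → t (g ^ (-m) • k • x) = t x + (n - m) := by
    intro x hx
    rw [C.sh _ (hn x hx).1, (hn x hx).2]
    push_cast; ring
  have hnm : n - m = 0 := by
    by_contra hne
    have h3 : 0 < n - m := lt_of_le_of_ne (by linarith) (Ne.symm hne)
    have h4 := loop_nc hs G.one_mem (G.mul_mem (G.zpow_mem hg (-m)) hk)
    apply h4
    rw [one_smul, one_smul, mul_smul, mul_smul]
    have hga : g • a ≠ c := by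
      have := C.off 1 ha
      rwa [_root_.zpow_one] at this
    have tga : t (g • a) = t a + 1 := by
      have := C.sh 1 ha
      rw [_root_.zpow_one] at this
      push_cast at this
      exact this
    rw [C.cr ha hga (C.off _ (hn a ha).1) (C.off _ (hn _ hga).1), hl a ha, hl _ hga, tga]
    left
    exact ⟨Or.inl ⟨by linarith, by linarith⟩, Or.inl ⟨by linarith, by linarith⟩⟩
  have hkx : ∀ x, x ≠ c → k • x = g ^ m • x := by
    intro x hx
    refine C.inj (hn x hx).1 (C.off m hx) ?_
    rw [(hn x hx).2, C.sh m hx]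
    linarith
  -- `g ^ (-m) k` fixes all cusps
  obtain ⟨j, hj⟩ := fix_par (g := g ^ (-m) * k) (a := c) (by
    rw [mul_smul, hkc, fix_zpow hc])
  have hfa : (g ^ (-m) * k) • a = a := by
    rw [mul_smul, hkx a ha, ← mul_smul, ← _root_.zpow_add, neg_add_cancel, _root_.zpow_zero,
      one_smul]
  have hpa : par c j • a = a := by
    rcases hj with e | e
    · rw [← e]; exact hfa
    · rw [← neg_smul', ← e]; exact hfa
  have hj0 : j = 0 := by
    by_contra hne
    have h3 := par_dt c a a j
    rw [hpa, dt_self] at h3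
    have hd : dt c a ≠ 0 := dt_ne_zero ha.symm
    have hd' : dt a c ≠ 0 := dt_ne_zero ha
    have h4 : j * dt c a * dt a c = 0 := by linarith
    rcases mul_eq_zero.1 h4 with h5 | h5
    · rcases mul_eq_zero.1 h5 with h6 | h6
      · exact hne h6
      · exact hd h6
    · exact hd' h5
  rw [hj0, par_zero] at hj
  have hk' : k = g ^ m * (g ^ (-m) * k) := by
    rw [← mul_assoc, ← _root_.zpow_add, add_neg_cancel, _root_.zpow_zero, one_mul]
  rcases hj with e | e
  · left; rw [e, mul_one] at hk'; exact hk'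
  · right; rw [e, mul_neg, mul_one] at hk'; exact hk'

end

/-- Module MONOG. -/
theorem monog (hF : FixTwoStatement) : MonogStatement := by
  intro G hG a c g hg hc hs
  have ha := ac_ne hc hs
  obtain ⟨t, C⟩ := exists_co hc ha hs.1.symm
  have hne := monog_ne hF hG hg hc hs
  have hga : g • a ≠ c := by
    have := C.off 1 ha
    rwa [_root_.zpow_one] at this
  -- pairs crossing no translate of the loop
  have hst : ∀ x y, (∀ k ∈ G, ¬ Cross x y (k • a) (k • g • a)) → ∀ l ∈ G, ∀ i : ℤ,
      ¬ Cross (l • x) (l • y) (g ^ i • a) (g ^ (i + 1) • a) := by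
    intro x y h l hl i hcr
    rw [← cross_smul l⁻¹, inv_smul_smul, inv_smul_smul, ← zpow_a, ← mul_smul, ← mul_smul] at hcr
    exact h _ (G.mul_mem (G.inv_mem hl) (G.zpow_mem hg i)) hcr
  have hend : ∀ x y, Simple G x y → (∀ k ∈ G, ¬ Cross x y (k • a) (k • g • a)) →
      (∃ k ∈ G, k • c = x) → SameArc G c a x y := by
    rintro x y hxy h ⟨k, hk, rfl⟩
    have hY : k⁻¹ • y ≠ c := by
      intro e
      apply hxy.1
      rw [← e, smul_inv_smul]
    obtain ⟨i, hi⟩ := vert C ha hY (by
      intro i hcr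
      have h1 := hst _ _ h k⁻¹ (G.inv_mem hk) i
      rw [inv_smul_smul] at h1
      exact h1 hcr)
    refine ⟨k * g ^ i, G.mul_mem hk (G.zpow_mem hg i), Or.inl ⟨?_, ?_⟩⟩
    · rw [mul_smul, fix_zpow hc]
    · rw [mul_smul, ← hi, smul_inv_smul]
  refine ⟨monog_gen hg hc hs, ⟨ha.symm, ?_⟩, hne, ?_⟩
  · -- the radius is simple
    intro k hk hcr
    have hkc : k • c ≠ c := hcr.ne.2.1.symm
    have hka : k • a ≠ c := hcr.ne.2.2.1.symm
    rw [C.cz ha hkc hka] at hcr
    -- the position of `k c`
    obtain ⟨i, hi1, hi2⟩ : ∃ i : ℤ, t a + i < t (k • c) ∧ t (k • c) < t a + (i + 1) := by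
      rcases star_pos C ha hkc with ⟨i, hi⟩ | h
      · exfalso
        apply hne (g ^ (-i) * k) (G.mul_mem (G.zpow_mem hg _) hk)
        rw [mul_smul, hi, ← mul_smul, ← _root_.zpow_add, neg_add_cancel, _root_.zpow_zero,
          one_smul]
      · exact h
    -- the position of `k⁻¹ c`
    have hkc' : k⁻¹ • c ≠ c := by
      intro e
      apply hkc
      rw [inv_smul_eq_iff] at e
      exact e.symm
    obtain ⟨m, hm1, hm2⟩ : ∃ m : ℤ, t a + m < t (k⁻¹ • c) ∧ t (k⁻¹ • c) < t a + (m + 1) := by
      rcases star_pos C ha hkc' with ⟨m, hm⟩ | h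
      · exfalso
        apply hne (g ^ (-m) * k⁻¹) (G.mul_mem (G.zpow_mem hg _) (G.inv_mem hk))
        rw [mul_smul, hm, ← mul_smul, ← _root_.zpow_add, neg_add_cancel, _root_.zpow_zero,
          one_smul]
      · exact h
    have hfin : ∀ j : ℤ, k • g ^ j • a ≠ c := by
      intro j e
      apply hne (g ^ (-j) * k⁻¹) (G.mul_mem (G.zpow_mem hg _) (G.inv_mem hk))
      rw [mul_smul, ← e, inv_smul_smul, ← mul_smul, ← _root_.zpow_add, neg_add_cancel,
        _root_.zpow_zero, one_smul]
    set P := k • g ^ m • a with hP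
    set Q := k • g ^ (m + 1) • a with hQ
    -- `k c` is between `P` and `Q`
    have hB1 : Btw (t P) (t (k • c)) (t Q) := by
      rw [← C.cz hkc (hfin m) (hfin (m + 1))]
      have h1 : Cross c (k⁻¹ • c) (g ^ m • a) (g ^ (m + 1) • a) := by
        rw [C.cz hkc' (C.off m ha) (C.off _ ha), C.sh m ha, C.sh _ ha]
        push_cast
        exact Or.inl ⟨hm1, hm2⟩
      rw [← cross_smul k, smul_inv_smul] at h1
      exact cross_comm_left.1 h1
    -- `k a` is in the closed interval `P`, `Q`
    have hB2 : k • a = P ∨ k • a = Q ∨ Btw (t P) (t (k • a)) (t Q) := by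
      by_cases hm0 : m = 0
      · left; rw [hP, hm0, _root_.zpow_zero, one_smul]
      by_cases hm1' : m + 1 = 0
      · right; left; rw [hQ, hm1', _root_.zpow_zero, one_smul]
      right; right
      rw [← C.cz hka (hfin m) (hfin (m + 1))]
      have h1 : Cross a (k⁻¹ • c) (g ^ m • a) (g ^ (m + 1) • a) := by
        rw [C.cr ha hkc' (C.off m ha) (C.off _ ha), C.sh m ha, C.sh _ ha]
        push_cast
        rcases lt_or_ge m 0 with h | h
        · have h' : (m : ℚ) + 1 ≤ -1 := by exact_mod_cast (by omega : m + 1 ≤ -1)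
          right
          exact ⟨Or.inr ⟨by linarith, by linarith⟩, Or.inr ⟨by linarith, by linarith⟩⟩
        · have h' : (1 : ℚ) ≤ m := by exact_mod_cast (by omega : 1 ≤ m)
          left
          exact ⟨Or.inl ⟨by linarith, by linarith⟩, Or.inl ⟨by linarith, by linarith⟩⟩
      rw [← cross_smul k, smul_inv_smul] at h1
      exact cross_comm_left.1 h1
    -- `P`, `Q` do not cross the side of the star over `k c`, nor the shifted pair
    have hPc : P ≠ c := hfin m
    have hQc : Q ≠ c := hfin (m + 1)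
    have hPQ : Q = (k * g ^ m) • g • a := by rw [mul_smul, zpow_a]
    have hPQ' : P = (k * g ^ m) • a := by rw [mul_smul]
    have hn1 : ¬ Cross P Q (g ^ i • a) (g ^ (i + 1) • a) := by
      have := loop_nc hs (G.mul_mem hk (G.zpow_mem hg m)) (G.zpow_mem hg i)
      rwa [zpow_a, ← hPQ, ← hPQ'] at this
    have hn2 : ¬ Cross P Q (g • P) (g • Q) := by
      have := loop_nc hs (G.mul_mem hk (G.zpow_mem hg m))
        (G.mul_mem hg (G.mul_mem hk (G.zpow_mem hg m)))
      rwa [mul_smul g, mul_smul g, ← hPQ, ← hPQ'] at this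
    have hsP : t (g • P) = t P + 1 ∧ g • P ≠ c := by
      have h1 := C.sh 1 hPc
      have h2 := C.off 1 hPc
      rw [_root_.zpow_one] at h1 h2
      push_cast at h1
      exact ⟨h1, h2⟩
    have hsQ : t (g • Q) = t Q + 1 ∧ g • Q ≠ c := by
      have h1 := C.sh 1 hQc
      have h2 := C.off 1 hQc
      rw [_root_.zpow_one] at h1 h2
      push_cast at h1
      exact ⟨h1, h2⟩
    rw [C.cr hPc hQc (C.off i ha) (C.off _ ha), C.sh i ha, C.sh _ ha] at hn1
    rw [C.cr hPc hQc hsP.2 hsQ.2, hsP.1, hsQ.1] at hn2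
    push_cast at hn1
    have hB2' : t (k • a) = t P ∨ t (k • a) = t Q ∨ Btw (t P) (t (k • a)) (t Q) := by
      rcases hB2 with h | h | h
      · left; rw [h]
      · right; left; rw [h]
      · right; right; exact h
    -- the integer `i` does not separate
    have hi' : (i : ℚ) + 1 ≤ 0 ∨ 0 ≤ (i : ℚ) := by
      rcases lt_or_ge i 0 with h | h
      · left; exact_mod_cast (by omega : i + 1 ≤ 0)
      · right; exact_mod_cast h
    generalize t P = p at *
    generalize t Q = q at *
    generalize t (k • c) = u at *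
    generalize t (k • a) = x at *
    generalize t a = s at *
    generalize (i : ℚ) = j at *
    clear hm1 hm2 hfin hsP hsQ hPQ hPQ' hP hQ hPc hQc
    unfold Btw Out at *
    -- the interval `p, q` is contained in `[s + j, s + j + 1]`
    have hsub : (s + j ≤ p ∧ p ≤ s + (j + 1)) ∧ (s + j ≤ q ∧ q ≤ s + (j + 1)) := by
      rcases hB1 with ⟨h1, h2⟩ | ⟨h1, h2⟩
      · have hlen : q - p ≤ 1 := by
          by_contra hcon
          push Not at hcon
          apply hn2
          left
          exact ⟨Or.inl ⟨by linarith, by linarith⟩, Or.inl ⟨by linarith, by linarith⟩⟩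
        have h3 : s + j ≤ p := by
          by_contra hcon
          push Not at hcon
          apply hn1
          left
          exact ⟨Or.inl ⟨by linarith, by linarith⟩, Or.inl ⟨by linarith, by linarith⟩⟩
        have h4 : q ≤ s + (j + 1) := by
          by_contra hcon
          push Not at hcon
          apply hn1
          right
          have h5 : s + j < p := by linarith
          exact ⟨Or.inr ⟨by linarith, by linarith⟩, Or.inl ⟨by linarith, by linarith⟩⟩
        exact ⟨⟨by linarith, by linarith⟩, ⟨by linarith, by linarith⟩⟩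
      · have hlen : p - q ≤ 1 := by
          by_contra hcon
          push Not at hcon
          apply hn2
          right
          exact ⟨Or.inl ⟨by linarith, by linarith⟩, Or.inr ⟨by linarith, by linarith⟩⟩
        have h3 : s + j ≤ q := by
          by_contra hcon
          push Not at hcon
          apply hn1
          left
          exact ⟨Or.inr ⟨by linarith, by linarith⟩, Or.inl ⟨by linarith, by linarith⟩⟩
        have h4 : p ≤ s + (j + 1) := by
          by_contra hcon
          push Not at hcon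
          apply hn1
          right
          have h5 : s + j < q := by linarith
          exact ⟨Or.inr ⟨by linarith, by linarith⟩, Or.inr ⟨by linarith, by linarith⟩⟩
        exact ⟨⟨by linarith, by linarith⟩, ⟨by linarith, by linarith⟩⟩
    have hx : s + j ≤ x ∧ x ≤ s + (j + 1) := by
      rcases hB2' with rfl | rfl | ⟨h1, h2⟩ | ⟨h1, h2⟩
      · exact hsub.1
      · exact hsub.2
      · exact ⟨by linarith [hsub.1.1], by linarith [hsub.2.2]⟩
      · exact ⟨by linarith [hsub.2.1], by linarith [hsub.1.2]⟩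
    rcases hcr with ⟨h1, h2⟩ | ⟨h1, h2⟩ <;> rcases hi' with h3 | h3 <;> linarith [hx.1, hx.2]
  · intro x y hxy hnc
    refine ⟨?_, hend x y hxy hnc, ?_⟩
    · intro k hk hcr
      rw [← cross_smul k⁻¹, inv_smul_smul, inv_smul_smul] at hcr
      have hs2 : ∀ l : SLZ, l ∈ G → ¬ Cross (k⁻¹ • x) (k⁻¹ • y) (l • k⁻¹ • x) (l • k⁻¹ • y) := by
        intro l hl h
        rw [← cross_smul k, smul_inv_smul, smul_inv_smul, ← mul_smul, ← mul_smul, ← mul_smul,
          ← mul_smul] at h
        exact hxy.2 _ (G.mul_mem (G.mul_mem hk hl) (G.inv_mem hk)) (by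
          simpa only [mul_assoc] using h)
      have hst' := hst x y hnc k⁻¹ (G.inv_mem hk)
      generalize k⁻¹ • x = X at *
      generalize k⁻¹ • y = Y at *
      have hXc : X ≠ c := hcr.ne.2.1
      have hYc : Y ≠ c := hcr.ne.2.2.2.1
      have hcr2 := (C.cz ha hXc hYc).1 (cross_comm_left.1 (cross_comm_right.1 (cross_swap.1 hcr)) |>
        fun h => cross_comm_left.1 (cross_comm_right.1 h))
      have haux : ∀ X Y : Cusp, X ≠ c → Y ≠ c → Btw (t X) (t a) (t Y) →
          (∀ i : ℤ, ¬ Cross X Y (g ^ i • a) (g ^ (i + 1) • a)) → ∃ i : ℤ, X = g ^ i • a := by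
        intro X Y hX hY hb hn
        rcases star_pos C ha hX with h | ⟨i, h1, h2⟩
        · exact h
        · exfalso
          apply hn i
          rw [C.cr hX hY (C.off i ha) (C.off _ ha), C.sh i ha, C.sh _ ha]
          push_cast
          have hi' : (i : ℚ) + 1 ≤ 0 ∨ 0 ≤ (i : ℚ) := by
            rcases lt_or_ge i 0 with h | h
            · left; exact_mod_cast (by omega : i + 1 ≤ 0)
            · right; exact_mod_cast h
          unfold Btw Out at *
          rcases hi' with h3 | h3
          · right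
            rcases hb with ⟨h4, h5⟩ | ⟨h4, h5⟩
            · exact ⟨Or.inr ⟨by linarith, by linarith⟩, Or.inl ⟨by linarith, by linarith⟩⟩
            · exfalso; linarith
          · left
            rcases hb with ⟨h4, h5⟩ | ⟨h4, h5⟩
            · exfalso; linarith
            · exact ⟨Or.inr ⟨by linarith, by linarith⟩, Or.inl ⟨by linarith, by linarith⟩⟩
      obtain ⟨i, rfl⟩ := haux X Y hXc hYc hcr2 hst'
      obtain ⟨j, rfl⟩ := haux Y (g ^ i • a) hYc hXc (Or.symm hcr2)
        (fun i h => hst' i (cross_comm_left.1 h))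
      have hij := hs2 g hg
      rw [← mul_smul, ← mul_smul, ← _root_.zpow_one_add, ← _root_.zpow_one_add,
        C.cr hXc hYc (C.off _ ha) (C.off _ ha), C.sh _ ha, C.sh _ ha, C.sh _ ha, C.sh _ ha] at hij
      rw [C.sh _ ha, C.sh _ ha] at hcr2
      apply hij
      push_cast
      unfold Btw Out at *
      rcases hcr2 with ⟨h1, h2⟩ | ⟨h1, h2⟩
      · have h1' : (i : ℚ) < 0 := by linarith
        have h2' : (0 : ℚ) < j := by linarith
        have h3 : (i : ℚ) ≤ -1 := by
          have : i < 0 := by exact_mod_cast h1'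
          exact_mod_cast (by omega : i ≤ -1)
        have h4 : (1 : ℚ) ≤ j := by
          have : 0 < j := by exact_mod_cast h2'
          exact_mod_cast (by omega : 1 ≤ j)
        left
        exact ⟨Or.inl ⟨by linarith, by linarith⟩, Or.inl ⟨by linarith, by linarith⟩⟩
      · have h1' : (j : ℚ) < 0 := by linarith
        have h2' : (0 : ℚ) < i := by linarith
        have h3 : (j : ℚ) ≤ -1 := by
          have : j < 0 := by exact_mod_cast h1'
          exact_mod_cast (by omega : j ≤ -1)
        have h4 : (1 : ℚ) ≤ i := by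
          have : 0 < i := by exact_mod_cast h2'
          exact_mod_cast (by omega : 1 ≤ i)
        right
        exact ⟨Or.inl ⟨by linarith, by linarith⟩, Or.inr ⟨by linarith, by linarith⟩⟩
    · intro hy
      have h1 := hend y x ⟨hxy.1.symm, ?_⟩ (fun k hk h => hnc k hk (cross_comm_left.1 h)) hy
      · exact h1.trans (SameArc.rev _ _)
      · intro l hl h
        exact hxy.2 l hl (cross_comm_left.1 (cross_comm_right.1 h))

end Pool.Agent.Lib.MP_eee7a8_ag.TB.C65
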